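import Mathlib
import Pool.Agent.TH436.CostasMethods
import Pool.Agent.TH436.SmallFields

set_option autoImplicit false

/-!
# Two different algebraic methods produce the same Costas permutation of order 7

The permutation `2 1 6 4 7 3 5` of order `7` is produced both by `G_2` (over the field with nine
elements, `α = β = 1 + i`) and by Rickard's method `RG_1` (over the field with eight elements,
`α = β = x` with `x ^ 3 = x + 1`, and `t₁ = t₂ = 4`).
-/

namespace Pool.Agent.Results.MP_c75f22_co.CollisionAtSeven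

open Pool.Agent.TH436

/-- The permutation `2 1 6 4 7 3 5`. -/
def f7 (i : ℕ) : ℕ := [0, 2, 1, 6, 4, 7, 3, 5].getD i 0

/-- The Golomb permutation `3 6 1 5 4 2` over the field with eight elements. -/
def g6 (i : ℕ) : ℕ := [0, 3, 6, 1, 5, 4, 2].getD i 0

theorem f7_costas : IsCostas 7 f7 := by
  refine ⟨⟨?_, ?_, ?_⟩, ?_⟩
  · intro i hi
    have h : ∀ i < 8, 1 ≤ i → 1 ≤ f7 i ∧ f7 i ≤ 7 := by decide
    exact h i (by have := hi.2; omega) hi.1
  · intro i hi j hj hij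
    have h : ∀ i < 8, ∀ j < 8, 1 ≤ i → 1 ≤ j → f7 i = f7 j → i = j := by decide
    exact h i (by have := hi.2; omega) j (by have := hj.2; omega) hi.1 hj.1 hij
  · intro j hj
    have h : ∀ j < 8, 1 ≤ j → ∃ i < 8, 1 ≤ i ∧ f7 i = j := by decide
    obtain ⟨i, h1, h2, h3⟩ := h j (by have := hj.2; omega) hj.1
    exact ⟨i, ⟨h2, by omega⟩, h3⟩
  · intro i j k l h1 h2 h3 h4 h5 h6 h7
    have h : ∀ i j k l : Fin 8, (1 ≤ (j : ℕ) ∧ (j : ℕ) < i ∧ 1 ≤ (l : ℕ) ∧ (l : ℕ) < k ∧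
        (i : ℕ) + l = k + j ∧ f7 i + f7 l = f7 k + f7 j) →
        ((i : ℕ) = k ∧ (j : ℕ) = l) := by decide +kernel
    rw [Prod.mk.injEq] at h7
    exact h ⟨i, by omega⟩ ⟨j, by omega⟩ ⟨k, by omega⟩ ⟨l, by omega⟩
      ⟨h1, h2, h4, h5, by simp only; omega, by simp only; omega⟩

/-- The element `1 + i` of the field with nine elements. -/
def a9 : F9 := ⟨1, 1⟩

/-- The element `x` of the field with eight elements. -/
def a8 : F8 := ⟨0, 1, 0⟩

theorem order_a9 : orderOf a9 = 8 := by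
  rw [orderOf_eq_iff (by norm_num)]
  exact ⟨by decide, by decide⟩

theorem order_a8 : orderOf a8 = 7 := by
  rw [orderOf_eq_iff (by norm_num)]
  exact ⟨by decide, by decide⟩

theorem producesG2 : Produces Method.G2 7 f7 := by
  refine ⟨F9, inferInstance, inferInstance, a9, a9, f7, ⟨?_, ?_, ?_⟩, ?_, ?_⟩
  · rw [order_a9, F9.card]
  · rw [order_a9, F9.card]
  · intro i h1 h2
    rw [F9.card] at h2 ⊢
    have h : ∀ i < 8, 1 ≤ i → 1 ≤ f7 i ∧ f7 i ≤ 9 - 2 ∧ a9 ^ (f7 i) + a9 ^ i = 1 := by decide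
    exact h i (by omega) h1
  · rw [F9.card]
  · intro i _ _
    rfl

theorem producesRG1 : Produces Method.RG1 7 f7 := by
  refine ⟨F8, inferInstance, inferInstance, a8, a8, g6, 4, 4, ⟨?_, ?_, ?_⟩, ?_, ?_, ?_, ?_, ?_,
    ?_, ?_⟩
  · rw [order_a8, F8.card]
  · rw [order_a8, F8.card]
  · intro i h1 h2
    rw [F8.card] at h2 ⊢
    have h : ∀ i < 7, 1 ≤ i → 1 ≤ g6 i ∧ g6 i ≤ 8 - 2 ∧ a8 ^ (g6 i) + a8 ^ i = 1 := by decide
    exact h i (by omega) h1
  · rw [F8.card]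
  · norm_num
  · rw [F8.card]; norm_num
  · norm_num
  · rw [F8.card]; norm_num
  · rfl
  · intro i h1 h2 h3
    rw [F8.card] at h2 ⊢
    have h : ∀ i < 8, 1 ≤ i → i ≠ 4 → (f7 i : ℤ) =
        ((g6 ((((i : ℤ) - (4 : ℕ) - 1) % (((8 : ℕ) : ℤ) - 1)).toNat + 1) : ℤ) + (4 : ℕ) - 1)
          % (((8 : ℕ) : ℤ) - 1) + 1 := by decide
    exact h i (by omega) h1 h3

/-- Some Costas permutation of order `n > 5` is produced by two different methods among the
fourteen. -/
theorem result : ∃ (n : ℕ) (f : ℕ → ℕ) (M₁ M₂ : Method), 5 < n ∧ IsCostas n f ∧ M₁ ≠ M₂ ∧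
    Produces M₁ n f ∧ Produces M₂ n f :=
  ⟨7, f7, Method.G2, Method.RG1, by norm_num, f7_costas, by simp, producesG2, producesRG1⟩

end Pool.Agent.Results.MP_c75f22_co.CollisionAtSeven
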